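import Pool.Agent.Helper16.MD.Stmts

set_option autoImplicit false

namespace Pool.Agent.Helper16.MD

/-- auxiliary factor -/
def tot_g (d : ℕ) : ℕ := (if 2 ∣ d then 8 else 1) * (if 3 ∣ d then 2 else 1)

theorem tot_one (p c : ℕ) (hp : p.Prime) (a b : ℕ) (hab : Nat.Coprime a b) :
    (if p ∣ a then c else 1) * (if p ∣ b then c else 1) ≤ (if p ∣ a * b then c else 1) := by
  by_cases h1 : p ∣ a
  · have h2 : ¬ p ∣ b := fun h => by
      have h3 := Nat.dvd_gcd h1 h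
      rw [hab] at h3
      exact hp.one_lt.ne' (Nat.dvd_one.1 h3)
    rw [if_pos h1, if_neg h2, if_pos (Dvd.dvd.mul_right h1 b), mul_one]
  · by_cases h2 : p ∣ b
    · rw [if_neg h1, if_pos h2, if_pos (Dvd.dvd.mul_left h2 a), one_mul]
    · rw [if_neg h1, if_neg h2, if_neg (fun h => (hp.dvd_mul.1 h).elim h1 h2), mul_one]

theorem tot_g_mul (a b : ℕ) (hab : Nat.Coprime a b) : tot_g a * tot_g b ≤ tot_g (a * b) := by
  unfold tot_g
  calc _ = ((if 2 ∣ a then 8 else 1) * (if 2 ∣ b then 8 else 1)) *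
        ((if 3 ∣ a then 2 else 1) * (if 3 ∣ b then 2 else 1)) := by ring
    _ ≤ _ := Nat.mul_le_mul (tot_one 2 8 Nat.prime_two a b hab)
      (tot_one 3 2 Nat.prime_three a b hab)

theorem tot_base (p : ℕ) (hp : p.Prime) : p ^ 3 ≤ tot_g p * (p - 1) ^ 4 := by
  have h2 := hp.two_le
  by_cases h5 : 5 ≤ p
  · have hg : 1 ≤ tot_g p := by
      unfold tot_g
      split_ifs <;> norm_num
    obtain ⟨q, rfl⟩ : ∃ q, p = q + 5 := ⟨p - 5, by omega⟩
    have h1 : q + 5 - 1 = q + 4 := by omega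
    rw [h1]
    calc (q + 5) ^ 3 ≤ (q + 4) ^ 4 := by ring_nf; nlinarith [sq_nonneg (q : ℤ), Nat.zero_le (q ^ 2), Nat.zero_le (q ^ 3), Nat.zero_le (q ^ 4), Nat.zero_le q]
      _ = 1 * (q + 4) ^ 4 := by ring
      _ ≤ tot_g (q + 5) * (q + 4) ^ 4 := Nat.mul_le_mul_right _ hg
  · interval_cases p
    · unfold tot_g; norm_num
    · unfold tot_g; norm_num
    · exact absurd hp (by norm_num)

theorem tot_main (d : ℕ) : d ^ 3 ≤ tot_g d * d.totient ^ 4 := by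
  induction d using Nat.recOnPosPrimePosCoprime with
  | prime_pow p n hp hn =>
    have hgp : tot_g (p ^ n) = tot_g p := by
      unfold tot_g
      have e2 : (2 ∣ p ^ n) ↔ 2 ∣ p :=
        ⟨fun h => Nat.prime_two.dvd_of_dvd_pow h, fun h => dvd_pow h hn.ne'⟩
      have e3 : (3 ∣ p ^ n) ↔ 3 ∣ p :=
        ⟨fun h => Nat.prime_three.dvd_of_dvd_pow h, fun h => dvd_pow h hn.ne'⟩
      simp only [e2, e3]
    rw [hgp, Nat.totient_prime_pow hp hn]
    obtain ⟨m, rfl⟩ : ∃ m, n = m + 1 := ⟨n - 1, by omega⟩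
    have h1 := tot_base p hp
    have hm : m + 1 - 1 = m := by omega
    rw [hm]
    have hp1 : 1 ≤ p ^ m := Nat.one_le_pow _ _ hp.pos
    calc (p ^ (m + 1)) ^ 3 = p ^ 3 * (p ^ m) ^ 3 := by ring
      _ ≤ (tot_g p * (p - 1) ^ 4) * (p ^ m) ^ 4 := by
          refine Nat.mul_le_mul h1 ?_
          exact Nat.pow_le_pow_right hp1 (by norm_num)
      _ = tot_g p * (p ^ m * (p - 1)) ^ 4 := by ring
  | zero => simp
  | one => simp [tot_g]
  | coprime a b ha hb hab iha ihb =>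
    rw [Nat.totient_mul hab]
    calc (a * b) ^ 3 = a ^ 3 * b ^ 3 := by ring
      _ ≤ (tot_g a * a.totient ^ 4) * (tot_g b * b.totient ^ 4) := Nat.mul_le_mul iha ihb
      _ = (tot_g a * tot_g b) * (a.totient * b.totient) ^ 4 := by ring
      _ ≤ tot_g (a * b) * (a.totient * b.totient) ^ 4 :=
          Nat.mul_le_mul_right _ (tot_g_mul a b hab)

theorem tot_le (d : ℕ) : d ^ 3 ≤ 16 * d.totient ^ 4 := by
  refine (tot_main d).trans (Nat.mul_le_mul_right _ ?_)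
  unfold tot_g
  split_ifs <;> norm_num

theorem st_TOT : ST_TOT := by
  intro ε hε
  refine ⟨⌈16 / ε ^ 4⌉₊ + 1, fun d hd => ?_⟩
  have hd1 : (16 : ℝ) / ε ^ 4 ≤ d := by
    refine (Nat.le_ceil _).trans ?_
    exact_mod_cast (Nat.le_succ _).trans hd
  have hd0 : (0 : ℝ) < d := by
    have : 0 < d := by omega
    exact_mod_cast this
  have h16 : (16 : ℝ) ≤ ε ^ 4 * d := by
    rw [div_le_iff₀ (by positivity)] at hd1
    linarith
  have h1 : ((d : ℝ)) ^ 3 ≤ 16 * (d.totient : ℝ) ^ 4 := by exact_mod_cast tot_le d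
  have h2 : (d : ℝ) ^ 2 ≤ (ε * (d.totient : ℝ)) ^ 4 := by
    have h3 : 16 * (d : ℝ) ^ 2 ≤ ε ^ 4 * (d : ℝ) ^ 3 := by
      calc 16 * (d : ℝ) ^ 2 ≤ (ε ^ 4 * d) * (d : ℝ) ^ 2 :=
            mul_le_mul_of_nonneg_right h16 (by positivity)
        _ = ε ^ 4 * (d : ℝ) ^ 3 := by ring
    have h4 : ε ^ 4 * (d : ℝ) ^ 3 ≤ ε ^ 4 * (16 * (d.totient : ℝ) ^ 4) :=
      mul_le_mul_of_nonneg_left h1 (by positivity)
    have h5 : ε ^ 4 * (16 * (d.totient : ℝ) ^ 4) = 16 * (ε * (d.totient : ℝ)) ^ 4 := by ring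
    linarith
  have h6 : (Real.sqrt d) ^ 4 ≤ (ε * (d.totient : ℝ)) ^ 4 := by
    have : (Real.sqrt d) ^ 4 = (d : ℝ) ^ 2 := by
      calc (Real.sqrt d) ^ 4 = (Real.sqrt d ^ 2) ^ 2 := by ring
        _ = (d : ℝ) ^ 2 := by rw [Real.sq_sqrt hd0.le]
    rw [this]; exact h2
  exact le_of_pow_le_pow_left₀ (by norm_num) (by positivity) h6

end Pool.Agent.Helper16.MD
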